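import Mathlib
import Pool.Agent.Lib.helper14.Hausd

set_option autoImplicit false

namespace Pool.Agent.Results.MP_7489b4_an.Cont

open Filter Topology Pool.Agent.Lib.H14Hausd

theorem result (α : ℝ) (hα : 0 < α) (f : ℝ → ℝ) (hf : Adm f)
    (h : limsup (fun n : ℕ => ENNReal.ofReal √n * hd α f (opW n f)) atTop < ⊤ ∨
      limsup (fun ρ : ℝ => ENNReal.ofReal (1 - ρ)⁻¹ * hd α f (opP ρ f)) (𝓝[<] 1) < ⊤ ∨
      limsup (fun n : ℕ => ENNReal.ofReal √n * hd α f (opV n f)) atTop < ⊤) :
    Continuous f := by
  rcases h with h | h | h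
  · exact contW hα one_pos hf (by simpa only [one_mul] using h)
  · exact contP hα one_pos hf (by simpa only [one_mul] using h)
  · exact contV hα one_pos hf (by simpa only [one_mul] using h)

end Pool.Agent.Results.MP_7489b4_an.Cont
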